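import Pool.Agent.MP_ca0a54_nt.H24T.Tr

/-! From the trace estimate to long sums: sliding windows and the Chinese remainder theorem. -/

namespace Pool.Agent.MP_ca0a54_nt.H24T

open Finset

theorem sum_range_mul (a b : ℕ) (F : ℕ → ℝ) :
    ∑ x ∈ range (a * b), F x = ∑ i ∈ range a, ∑ j ∈ range b, F (i * b + j) := by
  induction a with
  | zero => simp
  | succ a ih => rw [Nat.succ_mul, sum_range_add, ih, sum_range_succ]

theorem shift_one (g : ℕ → ℝ) (N : ℕ) :
    ∑ x ∈ range N, g (x + 1) = ∑ x ∈ range N, g x + g N - g 0 := by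
  rw [← sum_range_succ, sum_range_succ']; ring

theorem shift_per {g : ℕ → ℝ} {M : ℕ} (h : ∀ n, g (n + M) = g n) (v : ℕ) :
    ∑ y ∈ range M, g (y + v) = ∑ y ∈ range M, g y := by
  induction v with
  | zero => rfl
  | succ v ih =>
    have h1 := shift_one (fun y => g (y + v)) M
    simp only [add_right_comm _ 1 v, add_assoc, zero_add, add_comm M v, h] at h1
    rw [h1, ih]; ring

theorem shift_le {g : ℕ → ℝ} {B : ℝ} (h : ∀ n, |g n| ≤ B) (N v : ℕ) :
    |∑ x ∈ range N, g (x + v) - ∑ x ∈ range N, g x| ≤ 2 * v * B := by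
  induction v with
  | zero => simp
  | succ v ih =>
    have h1 := shift_one (fun y => g (y + v)) N
    simp only [add_right_comm _ 1 v, add_assoc] at h1
    rw [h1, abs_le] at *
    have h2 := abs_le.1 (h (N + v))
    have h3 := abs_le.1 (h (0 + v))
    push_cast
    constructor <;> linarith [ih.1, ih.2, h2.1, h2.2, h3.1, h3.2]

theorem sum_le_single {H : ℕ} {g : Fin H → ℝ} {B : ℝ} (hB : 0 ≤ B) (h : ∀ w, g w ≤ B) (t : ℕ)
    (ht : ∀ w, g w ≠ 0 → (w : ℕ) = t) : ∑ w, g w ≤ B := by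
  by_cases h0 : ∃ w, g w ≠ 0
  · obtain ⟨w, hw⟩ := h0
    rw [sum_eq_single w (fun u _ hu => ?_) (by simp)]
    · exact h w
    · by_contra hc
      exact hu (Fin.ext ((ht u hc).trans (ht w hw).symm))
  · rw [sum_eq_zero fun w _ => not_not.1 (not_exists.1 h0 w)]
    exact hB

theorem crt {P : Finset ℕ} [∀ p : P, NeZero p.1] {M : ℕ} (hP : ∀ p ∈ P, p.Prime ∧ p.Coprime M)
    (x : ℕ) : Function.Bijective fun (t : Fin (∏ p ∈ P, p)) (p : P) =>
      ((t * M + x : ℕ) : ZMod p) := by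
  rw [Fintype.bijective_iff_injective_and_card]
  refine ⟨fun s t hst => ?_, ?_⟩
  · wlog h : (s : ℕ) ≤ t generalizing s t
    · exact (this t s hst.symm (not_le.1 h).le).symm
    refine Fin.ext (Nat.ModEq.eq_of_lt_of_lt ((Nat.modEq_iff_dvd' h).2 ?_) s.2 t.2)
    refine prod_primes_dvd _ (fun p hp => (hP p hp).1.prime) fun p hp => ?_
    have h1 := (ZMod.natCast_eq_natCast_iff _ _ _).1 (congrFun hst ⟨p, hp⟩)
    exact (Nat.modEq_iff_dvd' h).1 ((h1.add_right_cancel' x).cancel_right_of_coprime (hP p hp).2)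
  · simp only [Fintype.card_fin, Fintype.card_pi, ZMod.card]
    exact (prod_coe_sort P fun p => p).symm

/-- The data of a periodic environment. -/
structure Env (r M m : ℕ) (P E : Finset ℕ) (Pe : ℕ → Finset ℕ) (wt μ : ℕ → ℝ)
    (k : ℕ → ℕ → ℕ → ℝ) (κ L : ℝ) : Prop where
  prime : ∀ p ∈ P, p.Prime ∧ p.Coprime M ∧ p.Coprime r ∧ m ≤ p
  sub : ∀ e ∈ E, Pe e ⊆ P
  lab : ∀ e ∈ E, e ∣ M ∧ 0 ≤ wt e
  len : ∀ e ∈ E, ∀ p ∈ Pe e, 2 * (r * e * p) ≤ 2 ^ m
  M0 : 0 < M
  pos : ∀ n, 0 < μ n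
  perm : ∀ n, μ (n + M) = μ n
  perk : ∀ n e p, k (n + M) e p = k n e p
  k01 : ∀ n e p, 0 ≤ k n e p ∧ k n e p ≤ 1
  one : 1 ≤ L
  tot : ∑ p ∈ P, 1 / (p : ℝ) ≤ L
  k0 : 0 ≤ κ
  row : ∀ n, ∀ p ∈ P, ∑ e ∈ E, (if p ∈ Pe e ∧ e ∣ n then wt e * k n e p else 0) ≤ κ * μ n
  cls : ∀ n, ∀ p ∈ P, ∀ p' ∈ P, p ≠ p' → ∀ a : ZMod p', m * ∑ e ∈ E,
    (if p ∈ Pe e ∧ e ∣ n ∧ (e : ZMod p') = a then wt e * k n e p else 0) ≤ κ * μ n

section

variable (r H : ℕ) (E : Finset ℕ) (Pe : ℕ → Finset ℕ) (wt : ℕ → ℝ) (k : ℕ → ℕ → ℕ → ℝ)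

/-- The weight of an edge. -/
noncomputable def cw (n e p : ℕ) : ℝ := H / ((H - r * e * p : ℕ) : ℝ) *
  (wt e * if e ∣ n then k n e p * k (n + r * e * p) e p else 0)

/-- The weight of the edges from `v` up to `w` in the window that starts at `y`. -/
noncomputable def num (y p v w : ℕ) : ℝ :=
  ∑ e ∈ E, if p ∈ Pe e ∧ w = v + r * e * p then cw r H wt k (y + v) e p else 0

theorem sum_num {P : Finset ℕ} (h : ∀ e ∈ E, Pe e ⊆ P) (y : ℕ) (Ψ : ℕ → ℕ → ℕ → ℝ) :
    ∑ v : Fin H, ∑ w : Fin H, ∑ p : P, num r H E Pe wt k y p v w * Ψ p v w =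
      ∑ e ∈ E, ∑ p ∈ Pe e, ∑ v ∈ range (H - r * e * p),
        cw r H wt k (y + v) e p * Ψ p v (v + r * e * p) := by
  rw [Fin.sum_univ_eq_sum_range (fun v => ∑ w : Fin H, ∑ p : P,
    num r H E Pe wt k y p v w * Ψ p v w) H]
  have e1 : ∀ v, ∑ w : Fin H, ∑ p : P, num r H E Pe wt k y p v w * Ψ p v w =
      ∑ e ∈ E, ∑ p ∈ Pe e, if v + r * e * p < H then
        cw r H wt k (y + v) e p * Ψ p v (v + r * e * p) else 0 := by
    intro v
    rw [Fin.sum_univ_eq_sum_range (fun w => ∑ p : P, num r H E Pe wt k y p v w * Ψ p v w) H,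
      sum_comm, sum_coe_sort P fun p => ∑ w ∈ range H, num r H E Pe wt k y p v w * Ψ p v w]
    simp only [num, sum_mul, ite_and, ite_mul, zero_mul]
    simp only [sum_comm (s := range H) (t := E), sum_ite_irrel, sum_const_zero, sum_ite_eq',
      mem_range]
    rw [sum_comm]
    refine sum_congr rfl fun e he => ?_
    rw [sum_ite_mem, inter_eq_right.2 (h e he)]
  simp only [e1]
  rw [sum_comm]
  refine sum_congr rfl fun e _ => ?_
  rw [sum_comm]
  refine sum_congr rfl fun p _ => ?_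
  rw [← sum_filter]
  congr 1
  ext v
  simp only [mem_filter, mem_range]
  omega

end

variable {r M m : ℕ} {P E : Finset ℕ} {Pe : ℕ → Finset ℕ} {wt μ : ℕ → ℝ} {k : ℕ → ℕ → ℕ → ℝ}
  {κ L : ℝ}

theorem Env.ratio (h : Env r M m P E Pe wt μ k κ L) {e p : ℕ} (he : e ∈ E) (hp : p ∈ Pe e) :
    (0 : ℝ) < ((2 ^ m - r * e * p : ℕ) : ℝ) ∧
      ((2 ^ m : ℕ) : ℝ) / ((2 ^ m - r * e * p : ℕ) : ℝ) ≤ 2 := by
  have h1 := h.len e he p hp
  have h2 := Nat.two_pow_pos m
  have h3 : (0 : ℝ) < ((2 ^ m - r * e * p : ℕ) : ℝ) := by exact_mod_cast (by omega)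
  refine ⟨h3, (div_le_iff₀ h3).2 ?_⟩
  exact_mod_cast (by omega)

theorem Env.cw_nonneg (h : Env r M m P E Pe wt μ k κ L) (H n : ℕ) {e : ℕ} (he : e ∈ E) (p : ℕ) :
    0 ≤ cw r H wt k n e p := by
  have := (h.lab e he).2
  have := (h.k01 n e p).1
  have := (h.k01 (n + r * e * p) e p).1
  unfold cw
  split_ifs <;> positivity

theorem Env.cw_le (h : Env r M m P E Pe wt μ k κ L) (n : ℕ) {e p : ℕ} (he : e ∈ E)
    (hp : p ∈ Pe e) :
    cw r (2 ^ m) wt k n e p ≤ 2 * (if e ∣ n then wt e * k n e p else 0) ∧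
    cw r (2 ^ m) wt k n e p ≤
      2 * (if e ∣ n + r * e * p then wt e * k (n + r * e * p) e p else 0) := by
  have h0 := (h.lab e he).2
  have h1 := h.k01 n e p
  have h2 := h.k01 (n + r * e * p) e p
  have h3 := (h.ratio he hp).2
  have h4 : e ∣ n + r * e * p ↔ e ∣ n :=
    (Nat.dvd_add_iff_left ((dvd_mul_left e r).mul_right p)).symm
  simp only [cw, h4]
  split_ifs
  · have h5 := mul_nonneg h0 (mul_nonneg h1.1 h2.1)
    exact ⟨mul_le_mul h3 (mul_le_mul_of_nonneg_left (mul_le_of_le_one_right h1.1 h2.2) h0) h5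
      zero_le_two, mul_le_mul h3
        (mul_le_mul_of_nonneg_left (mul_le_of_le_one_left h2.1 h1.2) h0) h5 zero_le_two⟩
  · simp

theorem Env.side (h : Env r M m P E Pe wt μ k κ L) (y p v : ℕ) (π ρ ρ' : ℕ → Prop)
    [DecidablePred π] [DecidablePred ρ] [DecidablePred ρ']
    (h1 : ∀ e w, w = v + r * e * p → π w → ρ e) (h2 : ∀ e w, v = w + r * e * p → π w → ρ' e) :
    ∑ w : Fin (2 ^ m), (if π w then num r (2 ^ m) E Pe wt k y p v w +
      num r (2 ^ m) E Pe wt k y p w v else 0) ≤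
      2 * ∑ e ∈ E, (if p ∈ Pe e ∧ e ∣ y + v ∧ ρ e then wt e * k (y + v) e p else 0) +
      2 * ∑ e ∈ E, (if p ∈ Pe e ∧ e ∣ y + v ∧ ρ' e then wt e * k (y + v) e p else 0) := by
  have e1 : ∀ w : ℕ, (if π w then num r (2 ^ m) E Pe wt k y p v w +
      num r (2 ^ m) E Pe wt k y p w v else 0) = ∑ e ∈ E,
      ((if π w ∧ p ∈ Pe e ∧ w = v + r * e * p then cw r (2 ^ m) wt k (y + v) e p else 0) +
      (if π w ∧ p ∈ Pe e ∧ v = w + r * e * p then cw r (2 ^ m) wt k (y + w) e p else 0)) := by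
    intro w
    by_cases hw : π w <;> simp [hw, num, sum_add_distrib]
  simp only [e1]
  rw [sum_comm, mul_sum, mul_sum, ← sum_add_distrib]
  refine sum_le_sum fun e he => ?_
  have h0 := mul_nonneg (h.lab e he).2 (h.k01 (y + v) e p).1
  rw [sum_add_distrib]
  refine add_le_add (sum_le_single (by split_ifs <;> positivity) (fun w => ?_) (v + r * e * p)
    fun w hw => ?_) (sum_le_single (by split_ifs <;> positivity) (fun w => ?_) (v - r * e * p)
    fun w hw => ?_)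
  · by_cases hc : π w ∧ p ∈ Pe e ∧ w = v + r * e * p
    · rw [if_pos hc]
      simpa only [hc.2.1, h1 e w hc.2.2 hc.1, true_and, and_true] using
        (h.cw_le (y + v) he hc.2.1).1
    · rw [if_neg hc]; split_ifs <;> positivity
  · exact (ite_ne_right_iff.1 hw).1.2.2
  · by_cases hc : π w ∧ p ∈ Pe e ∧ v = w + r * e * p
    · rw [if_pos hc]
      have h3 := (h.cw_le (y + w) he hc.2.1).2
      rw [add_assoc, ← hc.2.2] at h3
      simpa only [hc.2.1, h2 e w hc.2.2 hc.1, true_and, and_true] using h3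
    · rw [if_neg hc]; split_ifs <;> positivity
  · have := (ite_ne_right_iff.1 hw).1.2.2
    omega

theorem Env.hyp [∀ p : P, NeZero p.1] (h : Env r M m P E Pe wt μ k κ L) (y : ℕ) :
    Hyp (fun (p : P) (v : Fin (2 ^ m)) => -((v : ℕ) : ZMod p))
      (fun (p : P) (v w : Fin (2 ^ m)) => (num r (2 ^ m) E Pe wt k y p v w +
        num r (2 ^ m) E Pe wt k y p w v) / μ (y + v)) m (4 * κ) L where
  nn p v w := by
    have h1 : ∀ v w, 0 ≤ num r (2 ^ m) E Pe wt k y p v w := fun v w =>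
      sum_nonneg fun e he => by split_ifs; exacts [h.cw_nonneg _ _ he _, le_rfl]
    exact div_nonneg (add_nonneg (h1 _ _) (h1 _ _)) (h.pos _).le
  row p v := by
    have h1 := h.side y p v (fun _ => True) (fun _ => True) (fun _ => True) (by simp) (by simp)
    simp only [if_true, and_true] at h1
    rw [← sum_div, div_le_iff₀ (h.pos _)]
    linarith [h.row (y + v) p p.2]
  cls p q hpq v a := by
    have hne : p.1 ≠ q.1 := fun hc => hpq (Subtype.ext hc)
    obtain ⟨u, hu⟩ := (ZMod.isUnit_iff_coprime (r * p) q).2 (Nat.Coprime.mul_left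
      (h.prime q q.2).2.2.1.symm ((Nat.coprime_primes (h.prime p p.2).1 (h.prime q q.2).1).2 hne))
    have h1 := h.side y p v (fun w => a = -(w : ZMod q))
      (fun e => (e : ZMod q) = ↑u⁻¹ * (-a - (v : ℕ))) (fun e => (e : ZMod q) = ↑u⁻¹ * (a + (v : ℕ)))
      (fun e w hw ha => by
        rw [Units.eq_inv_mul_iff_mul_eq, hu, ha, hw]; push_cast; ring)
      (fun e w hw ha => by
        rw [Units.eq_inv_mul_iff_mul_eq, hu, ha, hw]; push_cast; ring)
    have h2 := h.cls (y + v) p p.2 q q.2 hne (↑u⁻¹ * (-a - (v : ℕ)))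
    have h3 := h.cls (y + v) p p.2 q q.2 hne (↑u⁻¹ * (a + (v : ℕ)))
    have h4 := mul_le_mul_of_nonneg_left h1 (Nat.cast_nonneg (α := ℝ) m)
    have e : ∀ (c : Prop) [Decidable c] (x z : ℝ),
        (if c then x / z else 0) = (if c then x else 0) / z := fun c _ x z => by
      split_ifs <;> simp
    simp only [e]
    rw [← sum_div, ← mul_div_assoc, div_le_iff₀ (h.pos _)]
    linarith
  big p := by simpa using (h.prime p p.2).2.2.2
  one := h.one
  tot := by
    simp only [ZMod.card, ← one_div]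
    rw [sum_coe_sort P fun p => 1 / (p : ℝ)]
    exact h.tot
  k0 := by have := h.k0; positivity

/-- The centred indicator of divisibility. -/
noncomputable def Dn (p n : ℕ) : ℝ := (if p ∣ n then 1 else 0) - 1 / (p : ℝ)

/-- The form in the window that starts at `x`. -/
noncomputable def Phi (r H : ℕ) (E : Finset ℕ) (Pe : ℕ → Finset ℕ) (wt : ℕ → ℝ)
    (k : ℕ → ℕ → ℕ → ℝ) (f : ℕ → ℝ) (x : ℕ) : ℝ :=
  ∑ e ∈ E, ∑ p ∈ Pe e, ∑ v ∈ range (H - r * e * p),
    cw r H wt k (x + v) e p * (f (x + v) * f (x + v + r * e * p) * Dn p (x + v))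

theorem Env.cw_per (h : Env r M m P E Pe wt μ k κ L) (H s n : ℕ) {e : ℕ} (he : e ∈ E) (p : ℕ) :
    cw r H wt k (s * M + n) e p = cw r H wt k n e p := by
  have h1 : ∀ n, k (s * M + n) e p = k n e p := by
    intro n
    induction s with
    | zero => simp
    | succ s ih => rw [Nat.succ_mul, add_right_comm, h.perk, ih]
  simp only [cw, add_assoc, h1, ← Nat.dvd_add_iff_right ((h.lab e he).1.mul_left s)]

theorem Env.block {j : ℕ} (h : Env r M (2 ^ (j + 1)) P E Pe wt μ k κ L) {f : ℕ → ℝ}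
    (hf : ∀ n, |f n| ≤ 1) (s y : ℕ) :
    ∑ t ∈ range (∏ p ∈ P, p), |Phi r (2 ^ 2 ^ (j + 1)) E Pe wt k f ((s + t) * M + y)| ≤
      (∏ p ∈ P, p : ℕ) * (48 * κ * √L * ∑ v ∈ range (2 ^ 2 ^ (j + 1)), μ (y + v)) := by
  haveI : ∀ p : P, NeZero p.1 := fun p => ⟨(h.prime p p.2).1.ne_zero⟩
  let eqv := Equiv.ofBijective _
    (crt (fun p hp => ⟨(h.prime p hp).1, (h.prime p hp).2.1⟩) (s * M + y))
  have h1 := tr (μ := fun v : Fin (2 ^ 2 ^ (j + 1)) => μ (y + v)) (h.hyp y) (fun v => h.pos _)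
    (fun p v w => by
      rw [mul_div_cancel₀ _ (h.pos _).ne', mul_div_cancel₀ _ (h.pos _).ne', add_comm])
    (fun p v w hw => by
      have h2 : ∀ v w : ℕ, num r (2 ^ 2 ^ (j + 1)) E Pe wt k y p v w ≠ 0 →
          -(v : ZMod p) = -(w : ZMod p) := by
        intro v w hw
        obtain ⟨e, -, he⟩ := exists_ne_zero_of_sum_ne_zero hw
        rw [(ite_ne_right_iff.1 he).1.2]
        simp
      by_cases h3 : num r (2 ^ 2 ^ (j + 1)) E Pe wt k y p v w = 0
      · refine (h2 w v fun h4 => hw ?_).symm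
        rw [h3, h4, add_zero, zero_div]
      · exact h2 v w h3)
    (by simp) (fun ω v => f (eqv.symm ω * M + (s * M + y) + v)) fun _ _ => hf _
  rw [← Equiv.sum_comp eqv, ← Fintype.card_congr eqv, Fintype.card_fin,
    Fin.sum_univ_eq_sum_range fun v => μ (y + v)] at h1
  rw [← Fin.sum_univ_eq_sum_range
    fun t => |Phi r (2 ^ 2 ^ (j + 1)) E Pe wt k f ((s + t) * M + y)|]
  refine le_of_mul_le_mul_left (le_trans (le_of_eq ?_) (h1.trans (le_of_eq (by ring)))) two_pos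
  rw [mul_sum]
  refine sum_congr rfl fun t _ => ?_
  rw [← abs_two, ← abs_mul, Equiv.symm_apply_apply]
  congr 1
  have hX : (s + t) * M + y = t * M + (s * M + y) := by ring
  have hD : ∀ (p : P) (v : Fin (2 ^ 2 ^ (j + 1))),
      D (fun (p : P) (v : Fin (2 ^ 2 ^ (j + 1))) => -((v : ℕ) : ZMod p)) (eqv t) p v =
        Dn p ((s + t) * M + y + v) := by
    intro p v
    simp only [D, Dn, eqv, Equiv.ofBijective_apply, ZMod.card, one_div, eq_neg_iff_add_eq_zero,
      ← Nat.cast_add, ZMod.natCast_eq_zero_iff, hX]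
  simp only [hD, ← hX, mul_div_cancel₀ _ (h.pos _).ne', add_mul (num _ _ _ _ _ _ _ _ _ _),
    add_mul (num _ _ _ _ _ _ _ _ _ _ * _), add_mul (num _ _ _ _ _ _ _ _ _ _ * _ * _),
    sum_add_distrib]
  generalize hx : (s + t) * M + y = x
  have hc : ∀ v, ∀ e ∈ E, ∀ p, cw r (2 ^ 2 ^ (j + 1)) wt k (y + v) e p =
      cw r (2 ^ 2 ^ (j + 1)) wt k (x + v) e p := fun v e he p => by
    rw [← hx, add_assoc, h.cw_per _ _ _ he]
  have e1 := sum_num r (2 ^ 2 ^ (j + 1)) E Pe wt k h.sub y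
    fun p v w => Dn p (x + v) * (f (x + v) * f (x + w))
  have e2 := sum_num r (2 ^ 2 ^ (j + 1)) E Pe wt k h.sub y
    fun p v w => Dn p (x + w) * (f (x + w) * f (x + v))
  rw [sum_comm] at e2
  simp only [mul_assoc (num _ _ _ _ _ _ _ _ _ _), mul_assoc (Dn _ _)]
  rw [e1, e2, two_mul]
  congr 1 <;> refine sum_congr rfl fun e he => sum_congr rfl fun p _ => sum_congr rfl fun v _ => ?_
  · rw [hc v e he, add_assoc x]; ring
  · have h5 : Dn p (x + (v + r * e * p)) = Dn p (x + v) := by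
      simp only [Dn, ← add_assoc, ← Nat.dvd_add_iff_left (dvd_mul_left p (r * e))]
    rw [hc v e he, h5, add_assoc x]; ring

theorem win {j : ℕ} (h : Env r M (2 ^ (j + 1)) P E Pe wt μ k κ L) :
    ∃ K : ℝ, ∀ (N : ℕ) (f : ℕ → ℝ), (∀ n, |f n| ≤ 1) →
      |∑ e ∈ E, ∑ p ∈ Pe e, wt e * ∑ n ∈ range N, if e ∣ n then
        k n e p * k (n + r * e * p) e p *
          (f n * f (n + r * e * p) * ((if p ∣ n then 1 else 0) - 1 / (p : ℝ))) else 0| ≤
      48 * κ * √L * ((∑ n ∈ range M, μ n) / M) * N + K := by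
  set H := 2 ^ 2 ^ (j + 1) with hH
  set Q := ∏ p ∈ P, p with hQ
  set C := 48 * κ * √L * ∑ n ∈ range M, μ n with hC
  have hk := h.k0
  have hC0 : 0 ≤ C := mul_nonneg (by positivity) (sum_nonneg fun n _ => (h.pos n).le)
  have hH0 : (0 : ℝ) < H := by positivity
  have hM0 : (0 : ℝ) < M := by exact_mod_cast h.M0
  have hQ0 : 0 < Q := prod_pos fun p hp => (h.prime p hp).1.pos
  refine ⟨Q * C + ∑ e ∈ E, ∑ p ∈ Pe e, 2 * H * wt e, fun N f hf => ?_⟩
  set G : ℕ → ℕ → ℕ → ℝ := fun e p n => wt e * if e ∣ n then k n e p * k (n + r * e * p) e p *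
    (f n * f (n + r * e * p) * ((if p ∣ n then 1 else 0) - 1 / (p : ℝ))) else 0 with hG
  have hGb : ∀ e ∈ E, ∀ p ∈ Pe e, ∀ n, |G e p n| ≤ wt e := by
    intro e he p hp n
    have h0 := (h.lab e he).2
    have h1 : (1 : ℝ) ≤ p := by exact_mod_cast (h.prime p (h.sub e he hp)).1.one_le
    have h2 : 0 < 1 / (p : ℝ) := by positivity
    have h3 : 1 / (p : ℝ) ≤ 1 := (div_le_one (by positivity)).2 h1
    have ab : ∀ a b : ℝ, |a| ≤ 1 → |b| ≤ 1 → |a * b| ≤ 1 := fun a b ha hb => by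
      rw [abs_mul]; exact mul_le_one₀ ha (abs_nonneg _) hb
    have hk1 : ∀ n, |k n e p| ≤ 1 := fun n => by
      rw [abs_of_nonneg (h.k01 n e p).1]; exact (h.k01 n e p).2
    simp only [hG]
    rw [abs_mul, abs_of_nonneg h0]
    refine mul_le_of_le_one_right h0 ?_
    split_ifs
    · exact ab _ _ (ab _ _ (hk1 _) (hk1 _)) (ab _ _ (ab _ _ (hf _) (hf _))
        (abs_le.2 ⟨by linarith, by linarith⟩))
    · exact ab _ _ (ab _ _ (hk1 _) (hk1 _)) (ab _ _ (ab _ _ (hf _) (hf _))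
        (abs_le.2 ⟨by linarith, by linarith⟩))
    · simp
  have h1 : |∑ x ∈ range N, Phi r H E Pe wt k f x - H * ∑ e ∈ E, ∑ p ∈ Pe e, ∑ n ∈ range N,
      G e p n| ≤ H * ∑ e ∈ E, ∑ p ∈ Pe e, 2 * H * wt e := by
    simp only [Phi]
    rw [sum_comm, mul_sum, mul_sum, ← sum_sub_distrib]
    refine (abs_sum_le_sum_abs _ _).trans (sum_le_sum fun e he => ?_)
    rw [sum_comm, mul_sum, mul_sum, ← sum_sub_distrib]
    refine (abs_sum_le_sum_abs _ _).trans (sum_le_sum fun p hp => ?_)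
    have h2 := (h.ratio he hp).1
    rw [← hH] at h2
    have e1 : ∀ n, cw r H wt k n e p * (f n * f (n + r * e * p) * Dn p n) =
        H / ((H - r * e * p : ℕ) : ℝ) * G e p n := fun n => by
      simp only [cw, hG, Dn]
      split_ifs <;> ring
    have e2 : ∀ z : ℝ, H * z = ∑ _v ∈ range (H - r * e * p), H / ((H - r * e * p : ℕ) : ℝ) * z :=
      fun z => by rw [sum_const, card_range, nsmul_eq_mul]; field_simp
    simp only [e1]
    rw [sum_comm, e2, e2 (2 * H * wt e), ← sum_sub_distrib]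
    refine (abs_sum_le_sum_abs _ _).trans (sum_le_sum fun v hv => ?_)
    rw [← mul_sum, ← mul_sub, abs_mul, abs_of_nonneg (by positivity)]
    refine mul_le_mul_of_nonneg_left ((shift_le (hGb e he p hp) N v).trans ?_) (by positivity)
    have h3 : (v : ℝ) ≤ H := by exact_mod_cast (mem_range.1 hv).le.trans (Nat.sub_le _ _)
    have := (h.lab e he).2
    gcongr
  have h2 : ∑ x ∈ range N, |Phi r H E Pe wt k f x| ≤ H * (C / M * N + Q * C) := by
    have h3 : N ≤ (N / (Q * M) + 1) * Q * M := by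
      rw [mul_assoc, mul_comm]
      exact (Nat.lt_mul_div_succ N (Nat.mul_pos hQ0 h.M0)).le
    refine (sum_le_sum_of_subset_of_nonneg (range_subset_range.2 h3)
      fun _ _ _ => abs_nonneg _).trans ?_
    rw [sum_range_mul, sum_comm]
    simp only [sum_range_mul _ Q]
    refine (sum_le_sum fun y _ => sum_le_sum fun b _ => h.block hf (b * Q) y).trans ?_
    simp only [sum_const, card_range, nsmul_eq_mul, ← mul_sum]
    rw [sum_comm]
    simp only [shift_per h.perm, sum_const, card_range, nsmul_eq_mul]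
    have h4 : ((N / (Q * M) : ℕ) : ℝ) * Q ≤ N / M := by
      rw [le_div_iff₀ hM0, mul_assoc]
      exact_mod_cast Nat.div_mul_le_self N (Q * M)
    have h5 := mul_le_mul_of_nonneg_right h4 (mul_nonneg hH0.le hC0)
    rw [← hQ, ← hH]
    push_cast
    calc _ = ((N / (Q * M) : ℕ) : ℝ) * Q * (H * C) + H * (Q * C) := by rw [hC]; ring
      _ ≤ N / M * (H * C) + H * (Q * C) := by linarith
      _ = _ := by ring
  have h6 := (abs_sum_le_sum_abs _ _).trans h2
  have h7 := abs_sub_abs_le_abs_sub (H * ∑ e ∈ E, ∑ p ∈ Pe e, ∑ n ∈ range N, G e p n)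
    (∑ x ∈ range N, Phi r H E Pe wt k f x)
  rw [abs_sub_comm, abs_mul, abs_of_pos hH0] at h7
  simp only [mul_sum (range N)]
  refine le_of_mul_le_mul_left ?_ hH0
  have e3 : 48 * κ * √L * ((∑ n ∈ range M, μ n) / M) = C / M := by rw [hC]; ring
  rw [e3]
  linarith

end Pool.Agent.MP_ca0a54_nt.H24T
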