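import Pool.Agent.MP_ca0a54_nt.SC.SpecT
import Pool.Agent.MP_ca0a54_nt.H24T.Win

/-! The trace estimate in periodic form. -/

namespace Pool.Agent.MP_ca0a54_nt.H24T

open Finset Pool.Agent.MP_ca0a54_nt.SC.CT

theorem exists_max {ℓ : ℕ} (c : Fin ℓ → Fin ℓ → ℝ) : ∃ g : Fin ℓ → ℝ, (∀ i, |g i| ≤ 1) ∧
    ∀ f : Fin ℓ → ℝ, (∀ i, |f i| ≤ 1) →
      |∑ i, ∑ j, f i * f j * c i j| ≤ |∑ i, ∑ j, g i * g j * c i j| := by
  obtain ⟨g, hg, h⟩ := (isCompact_univ_pi fun _ : Fin ℓ => isCompact_Icc (a := (-1 : ℝ))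
    (b := 1)).exists_isMaxOn ⟨0, fun _ _ => by simp⟩
    (f := fun f : Fin ℓ → ℝ => |∑ i, ∑ j, f i * f j * c i j|) (by fun_prop)
  exact ⟨g, fun i => abs_le.2 (hg i trivial), fun f hf => h fun i _ => abs_le.1 (hf i)⟩

theorem trStmt : TrStmt := by
  intro ℓ s D B K φ κ κ' L hB hs hl hκ hκ' hsk hL hrc hφ pφ pK hK0 hKs hKd hrow hcls
  obtain ⟨j, rfl⟩ : ∃ j, s = j + 1 := ⟨s - 1, by omega⟩
  have : ∀ p : B, NeZero p.1 := fun p => ⟨(hB p p.2).1.ne_zero⟩
  let c : ℕ → Fin ℓ → Fin ℓ → ℝ := fun n i k =>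
    φ n i * φ n k * ∑ p ∈ B, K n p i k * cp p (n + i)
  choose g hg hmax using fun n => exists_max (c n)
  have hKt : ∀ t y, K (t * D + y) = K y := fun t y => by
    rw [add_comm]; exact pK.nat_mul t y
  have hφt : ∀ t y, φ (t * D + y) = φ y := fun t y => by
    rw [add_comm]; exact pφ.nat_mul t y
  have pc : ∀ n, c (n + D * pd B) = c n := by
    intro n
    funext i k
    simp only [c]
    rw [add_comm n, mul_comm D, hKt, hφt]
    congr 1
    refine sum_congr rfl fun p hp => ?_
    have h1 : p ∣ pd B * D := Dvd.dvd.mul_right (dvd_prod_of_mem (fun q => q) hp) D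
    simp only [cp, add_assoc, ← Nat.dvd_add_iff_right h1]
  refine ⟨fun n => |∑ i, ∑ k, g n i * g n k * c n i k|, fun n => le_antisymm ?_ ?_, ?_,
    fun n f hf => ?_⟩
  · simpa only [pc] using hmax n _ (hg (n + D * pd B))
  · simpa only [pc] using hmax (n + D * pd B) _ (hg n)
  · rw [mul_comm D, sum_range_mul, sum_range_mul, sum_comm, sum_comm (s := range (pd B)), mul_sum]
    refine sum_le_sum fun y _ => ?_
    have hb := crt (P := B) (M := D) (fun p hp => ⟨(hB p hp).1, (hB p hp).2.1⟩) y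
    let eqv := Equiv.ofBijective _ hb
    have hd : ∀ (p : B) (n : ℕ) (i : Fin ℓ), (n : ZMod p) = -((i : ℕ) : ZMod p) ↔ p.1 ∣ n + i :=
      fun p n i => by rw [eq_neg_iff_add_eq_zero, ← Nat.cast_add, ZMod.natCast_eq_zero_iff]
    have hs : ∀ (p : B) (a : ZMod p), ∃ t : ℕ, ((t * D + y : ℕ) : ZMod p) = a := fun p a => by
      obtain ⟨t, ht⟩ := hb.2 (Function.update (fun _ => 0) p a)
      exact ⟨t, by simpa using congrFun ht p⟩
    have H : Hyp (fun (p : B) (i : Fin ℓ) => -((i : ℕ) : ZMod p))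
        (fun (p : B) (i k : Fin ℓ) => K y p i k * φ y k / φ y i) (2 ^ (j + 1)) κ L :=
      { nn := fun p i k => div_nonneg (mul_nonneg (hK0 _ _ _ _) (hφ _ _).le) (hφ _ _).le
        row := fun p i => by
          rw [← sum_div, div_le_iff₀ (hφ _ _)]; exact hrow y p p.2 i
        cls := fun p q hpq i a => by
          obtain ⟨t, rfl⟩ := hs q a
          have h1 := hcls (t * D + y) p p.2 q q.2 (fun h => hpq (Subtype.ext h.symm)) i
          have e : ∀ (c : Prop) [Decidable c] (x z : ℝ),
              (if c then x / z else 0) = (if c then x else 0) / z := fun c _ x z => by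
            split_ifs <;> simp
          rw [hKt, hφt] at h1
          simp only [hd, e]
          rw [← sum_div, ← mul_div_assoc, div_le_iff₀ (hφ _ _)]
          push_cast
          refine (mul_le_mul_of_nonneg_left h1 (by positivity)).trans ?_
          rw [← mul_assoc]
          exact mul_le_mul_of_nonneg_right hsk (hφ _ _).le
        big := fun p => by simpa using (hB p p.2).2.2
        one := hL
        tot := by
          simp only [ZMod.card, ← one_div]
          rw [sum_coe_sort B fun p => 1 / (p : ℝ)]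
          exact hrc
        k0 := hκ.le }
    have e1 : ∀ p i k, φ y i ^ 2 * (K y p i k * φ y k / φ y i) = φ y i * φ y k * K y p i k :=
      fun p i k => by have := (hφ y i).ne'; field_simp
    have h1 := tr (μ := fun i => φ y i ^ 2) H (fun i => pow_pos (hφ _ _) 2)
      (fun p i k => by rw [e1, e1, hKs, mul_comm (φ y i)])
      (fun p i k h => by
        obtain ⟨t, ht⟩ := hs p (-((i : ℕ) : ZMod p))
        have h2 : K (t * D + y) p i k ≠ 0 := fun h0 => h (by rw [← hKt t y, h0]; simp)
        rw [← ht, hd, ← hKd _ _ _ _ h2, ← hd, ht])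
      (by simpa using hl) (fun ω => g (eqv.symm ω * D + y)) fun _ _ => hg _ _
    rw [← Equiv.sum_comp eqv, ← Fintype.card_congr eqv, Fintype.card_fin] at h1
    simp only [hφt, sum_const, card_range, nsmul_eq_mul]
    rw [show pd B = ∏ p ∈ B, p from rfl, ← Fin.sum_univ_eq_sum_range
      fun t => |∑ i, ∑ k, g (t * D + y) i * g (t * D + y) k * c (t * D + y) i k|]
    refine le_trans (le_of_eq (sum_congr rfl fun t _ => ?_)) (h1.trans ?_)
    · congr 1
      refine sum_congr rfl fun i _ => sum_congr rfl fun k _ => ?_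
      simp only [c, hKt, hφt, e1, Equiv.symm_apply_apply, mul_sum]
      rw [← sum_coe_sort B]
      refine sum_congr rfl fun p _ => ?_
      simp only [H24T.D, eqv, Equiv.ofBijective_apply, hd, ZMod.card, cp, one_div]
      ring
    · have h3 : 0 ≤ ((∏ p ∈ B, p : ℕ) : ℝ) * (κ * √L * ∑ i, φ y i ^ 2) := by positivity
      nlinarith
  · refine le_trans (le_of_eq ?_) (hmax n (fun i => f i / φ n i) fun i => by
      rw [abs_div, abs_of_pos (hφ n i), div_le_one (hφ n i)]; exact hf i)
    congr 1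
    refine sum_congr rfl fun i _ => sum_congr rfl fun k _ => ?_
    have := (hφ n i).ne'
    have := (hφ n k).ne'
    simp only [c]
    field_simp

end Pool.Agent.MP_ca0a54_nt.H24T
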