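import Mathlib

/-! The trace estimate for a sum of centred kernels in a fixed environment. -/

namespace Pool.Agent.MP_ca0a54_nt.H24T

open Finset Function

section words

variable {ι : Type} [Fintype ι]

/-- Sum over all words of a given length. -/
def wsum : ℕ → (List ι → ℝ) → ℝ
  | 0, F => F []
  | j + 1, F => ∑ i, wsum j fun s => F (i :: s)

theorem wsum_mono (j : ℕ) {F G : List ι → ℝ} (h : ∀ s, s.length = j → F s ≤ G s) :
    wsum j F ≤ wsum j G := by
  induction j generalizing F G with
  | zero => exact h [] rfl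
  | succ j ih => exact sum_le_sum fun i _ => ih fun s hs => h _ (by simp [hs])

theorem wsum_sum {α : Type} (j : ℕ) (t : Finset α) (F : α → List ι → ℝ) :
    wsum j (fun s => ∑ a ∈ t, F a s) = ∑ a ∈ t, wsum j (F a) := by
  induction j generalizing F with
  | zero => rfl
  | succ j ih => simp only [wsum, ih]; exact sum_comm

theorem wsum_mul (j : ℕ) (c : ℝ) (F : List ι → ℝ) :
    wsum j (fun s => c * F s) = c * wsum j F := by
  induction j generalizing F with
  | zero => rfl
  | succ j ih => simp only [wsum, ih, mul_sum]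

variable [DecidableEq ι]

/-- The weight `1 / L` for every new letter. -/
noncomputable def nw (L : ℝ) : Finset ι → List ι → ℝ
  | _, [] => 1
  | S, i :: s => (if i ∈ S then 1 else L⁻¹) * nw L (insert i S) s

omit [Fintype ι] in
theorem nw_eq (L : ℝ) (S : Finset ι) (s : List ι) : nw L S s = L⁻¹ ^ (s.toFinset \ S).card := by
  induction s generalizing S with
  | nil => simp [nw]
  | cons i s ih =>
    rw [nw, ih, List.toFinset_cons]
    split_ifs with h
    · rw [one_mul, insert_eq_of_mem h, insert_sdiff_of_mem _ h]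
    · rw [insert_sdiff_of_notMem _ h, ← pow_succ', sdiff_insert, ← card_insert_of_notMem
        (notMem_erase i _)]
      congr 2
      ext a
      by_cases ha : a = i <;> simp [ha]

omit [Fintype ι] in
theorem nw_ge {L : ℝ} (hL : 1 ≤ L) {k : ℕ} {s : List ι} (hs : s.length = 2 * k)
    (h : ∀ i, s.count i ≠ 1) : 1 ≤ L ^ k * nw L ∅ s := by
  have h1 : s.toFinset.card • 2 ≤ ∑ a ∈ s.toFinset, s.count a :=
    card_nsmul_le_sum _ _ _ fun a ha => by
      have := List.count_pos_iff.2 (List.mem_toFinset.1 ha)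
      have := h a
      omega
  rw [List.sum_toFinset_count_eq_length, hs, smul_eq_mul] at h1
  rw [nw_eq, sdiff_empty, inv_pow, ← div_eq_mul_inv, le_div_iff₀ (by positivity), one_mul]
  exact pow_le_pow_right₀ hL (by omega)

end words

section prob

variable {ι : Type} [Fintype ι] [DecidableEq ι] {A : ι → Type} [∀ i, Fintype (A i)]
  [∀ i, DecidableEq (A i)]

theorem sum_update (i : ι) (a : A i) (G : (∀ i, A i) → ℝ) :
    ∑ x : ∀ i, A i, (if x i = a then 1 else 0) * G x =
      (Fintype.card (A i) : ℝ)⁻¹ * ∑ x : ∀ i, A i, G (update x i a) := by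
  have hq : (Fintype.card (A i) : ℝ) ≠ 0 := by
    exact_mod_cast (Fintype.card_pos_iff.2 ⟨a⟩).ne'
  have hinv : Involutive fun y : (∀ i, A i) × A i => (update y.1 i y.2, y.1 i) := by
    intro y; simp
  have h := Equiv.sum_comp hinv.toPerm fun y => (if y.1 i = a then 1 else 0) * G y.1
  simp only [Involutive.coe_toPerm, update_self, Fintype.sum_prod_type, sum_const, card_univ,
    nsmul_eq_mul, ite_mul, one_mul, zero_mul, sum_ite_eq', mem_univ, if_true] at h
  rw [h, ← mul_sum, inv_mul_cancel_left₀ hq]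
  simp only [ite_mul, one_mul, zero_mul]

variable {V : Type} [Fintype V] (col : ∀ i, V → A i) (W : ι → V → V → ℝ)

/-- The centred indicator. -/
noncomputable def D (x : ∀ i, A i) (i : ι) (v : V) : ℝ :=
  (if x i = col i v then 1 else 0) - (Fintype.card (A i) : ℝ)⁻¹

/-- The term of a word. -/
noncomputable def T (x : ∀ i, A i) (g : V → ℝ) : List ι → V → ℝ
  | [], v => g v
  | i :: s, v => D col x i v * ∑ w, W i v w * T x g s w

/-- Its majorant. -/
noncomputable def Ta (x : ∀ i, A i) : List ι → V → ℝ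
  | [], _ => 1
  | i :: s, v => ((if x i = col i v then 1 else 0) + (Fintype.card (A i) : ℝ)⁻¹) *
      ∑ w, W i v w * Ta x s w

omit [Fintype ι] in
theorem T_update (x : ∀ i, A i) (g : V → ℝ) (i : ι) (a : A i) {s : List ι} (hs : i ∉ s) (v : V) :
    T col W (update x i a) g s v = T col W x g s v := by
  induction s generalizing v with
  | nil => rfl
  | cons k s ih =>
    rw [List.mem_cons, not_or] at hs
    simp only [T, D, ih hs.2, update_of_ne (Ne.symm hs.1)]

theorem lonely (g : V → ℝ) (i : ι) {s : List ι} (hs : s.count i = 1) (v : V)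
    (H : (∀ i, A i) → ℝ) (hH : ∀ x a, H (update x i a) = H x) :
    ∑ x, H x * T col W x g s v = 0 := by
  induction s generalizing v H with
  | nil => simp at hs
  | cons k s ih =>
    by_cases hk : k = i
    · subst hk
      have h0 : k ∉ s := by simpa [List.count_eq_zero] using hs
      have h := sum_update k (col k v) fun x => H x * ∑ w, W k v w * T col W x g s w
      simp only [hH, T_update col W _ g k _ h0] at h
      rw [mul_sum, ← sub_eq_zero, ← sum_sub_distrib] at h
      rw [← h]
      exact sum_congr rfl fun x _ => by simp only [T, D]; ring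
    · have h1 : s.count i = 1 := by simpa [List.count_cons, hk] using hs
      simp only [T, mul_sum]
      rw [sum_comm]
      refine sum_eq_zero fun w _ => ?_
      rw [← ih h1 w (fun x => H x * D col x k v * W k v w) fun x a => by
        simp only [hH, D, update_of_ne hk]]
      exact sum_congr rfl fun x _ => by ring

omit [Fintype ι] [DecidableEq ι] in
theorem T_le (hW : ∀ i v w, 0 ≤ W i v w) (x : ∀ i, A i) {g : V → ℝ} (hg : ∀ v, |g v| ≤ 1)
    (s : List ι) (v : V) : |T col W x g s v| ≤ Ta col W x s v := by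
  induction s generalizing v with
  | nil => exact hg v
  | cons k s ih =>
    simp only [T, Ta, abs_mul]
    refine mul_le_mul ((abs_sub _ _).trans ?_) ((abs_sum_le_sum_abs _ _).trans
      (sum_le_sum fun w _ => ?_)) (abs_nonneg _) (by split_ifs <;> positivity)
    · rw [abs_of_nonneg (by split_ifs <;> positivity), abs_of_nonneg (by positivity)]
    · rw [abs_mul, abs_of_nonneg (hW _ _ _)]
      exact mul_le_mul_of_nonneg_left (ih w) (hW _ _ _)

/-- The weighted sum of the majorants. -/
noncomputable def Y (L : ℝ) (j : ℕ) (S : Finset ι) (x : ∀ i, A i) (v : V) : ℝ :=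
  wsum j fun s => nw L S s * Ta col W x s v

theorem Y_succ (L : ℝ) (j : ℕ) (S : Finset ι) (x : ∀ i, A i) (v : V) :
    Y col W L (j + 1) S x v = ∑ i, (if i ∈ S then 1 else L⁻¹) *
      (((if x i = col i v then 1 else 0) + (Fintype.card (A i) : ℝ)⁻¹) *
        ∑ w, W i v w * Y col W L j (insert i S) x w) := by
  simp only [Y, wsum, nw, Ta, ← wsum_mul, ← wsum_sum]
  congr 1
  funext i
  congr 1
  funext s
  simp only [mul_sum]
  exact sum_congr rfl fun w _ => by ring

/-- The number of fixed colours that agree with those of `v`. -/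
noncomputable def Lam (U : Finset ι) (c : ∀ i, A i) (v : V) : ℝ :=
  ∑ i ∈ U, if c i = col i v then 1 else 0

/-- The hypotheses on the kernels. -/
structure Hyp (m : ℕ) (κ L : ℝ) : Prop where
  nn : ∀ i v w, 0 ≤ W i v w
  row : ∀ i v, ∑ w, W i v w ≤ κ
  cls : ∀ i k, i ≠ k → ∀ v (a : A k), m * ∑ w, (if a = col k w then W i v w else 0) ≤ κ
  big : ∀ i, m ≤ Fintype.card (A i)
  one : 1 ≤ L
  tot : ∑ i, (Fintype.card (A i) : ℝ)⁻¹ ≤ L
  k0 : 0 ≤ κ

variable {col W}

theorem move {m : ℕ} {κ L : ℝ} (H : Hyp col W m κ L) (hm : 0 < m) (i : ι) (v : V) {U : Finset ι}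
    (hU : U.card ≤ m) (c : ∀ i, A i) : ∑ w, W i v w * (1 + Lam col U c w) ≤ 3 * κ := by
  have hm' : (0 : ℝ) < m := by exact_mod_cast hm
  have h1 : ∀ k ∈ U, ∑ w, W i v w * (if c k = col k w then 1 else 0) ≤
      (if i = k then κ else 0) + κ / m := by
    intro k _
    split_ifs with h
    · refine le_trans (sum_le_sum fun w _ => ?_) ((H.row i v).trans
        (le_add_of_nonneg_right (div_nonneg H.k0 hm'.le)))
      exact mul_le_of_le_one_right (H.nn _ _ _) (by split_ifs <;> norm_num)
    · rw [zero_add, le_div_iff₀' hm']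
      simpa only [mul_ite, mul_one, mul_zero] using H.cls i k h v (c k)
  have h2 := sum_le_sum h1
  rw [sum_add_distrib, sum_const, nsmul_eq_mul, sum_ite_eq, sum_comm] at h2
  have h3 : (U.card : ℝ) * (κ / m) ≤ κ := by
    rw [← mul_div_assoc, div_le_iff₀' hm']
    exact mul_le_mul_of_nonneg_right (by exact_mod_cast hU) H.k0
  have h4 : (if i ∈ U then κ else 0) ≤ κ := by split_ifs; exacts [le_rfl, H.k0]
  simp only [mul_add, mul_one, sum_add_distrib, Lam, mul_sum]
  linarith [H.row i v]

theorem Y_nonneg (hW : ∀ i v w, 0 ≤ W i v w) {L : ℝ} (hL : 0 < L) (j : ℕ) (S : Finset ι)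
    (x : ∀ i, A i) (v : V) : 0 ≤ Y col W L j S x v := by
  have h := wsum_mono (ι := ι) j (F := fun _ => 0 * 0)
    (G := fun s => nw L S s * Ta col W x s v) fun s _ => by
      rw [zero_mul, nw_eq]
      exact mul_nonneg (by positivity)
        ((abs_nonneg _).trans (T_le col W hW x (g := fun _ => 0) (by simp) s v))
  rwa [wsum_mul, zero_mul] at h

theorem Y_le {m : ℕ} {κ L : ℝ} (H : Hyp col W m κ L) (j : ℕ) (S U : Finset ι) (hU : U ⊆ S)
    (hS : S.card + j ≤ m) (c : ∀ i, A i) (v : V) :
    ∑ x, Y col W L j S (U.piecewise c x) v ≤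
      Fintype.card (∀ i, A i) * (12 * κ) ^ j * (1 + Lam col U c v) := by
  have hLam : ∀ U c v, 0 ≤ Lam col U c v := fun U c v =>
    sum_nonneg fun i _ => by split_ifs <;> norm_num
  have hk := H.k0
  induction j generalizing S U c v with
  | zero =>
    simp only [Y, wsum, nw, Ta, mul_one, sum_const, card_univ, nsmul_eq_mul, pow_zero]
    exact le_mul_of_one_le_right (by positivity) (by linarith [hLam U c v])
  | succ j ih =>
    have hm : 0 < m := by omega
    have hm' : (0 : ℝ) < m := by exact_mod_cast hm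
    have hL : 0 < L := one_pos.trans_le H.one
    set K : ℝ := Fintype.card (∀ i, A i) * (12 * κ) ^ j with hK
    have hK0 : 0 ≤ K := by positivity
    have h1 : ∀ i U', U' ⊆ insert i S → ∀ c', ∑ x, ∑ w,
        W i v w * Y col W L j (insert i S) (U'.piecewise c' x) w ≤ K * (3 * κ) := by
      intro i U' hU' c'
      have hc := card_insert_le i S
      rw [sum_comm]
      refine le_trans (sum_le_sum fun w _ => ?_) (le_trans (le_of_eq (mul_sum _ _ _).symm)
        (mul_le_mul_of_nonneg_left (move H hm i v ((card_le_card hU').trans (by omega)) c') hK0))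
      rw [← mul_sum, mul_left_comm]
      exact mul_le_mul_of_nonneg_left (ih _ _ hU' (by omega) c' w) (H.nn _ _ _)
    have h2 : ∀ i, ∑ x, ((if U.piecewise c x i = col i v then 1 else 0) +
        (Fintype.card (A i) : ℝ)⁻¹) * ∑ w, W i v w * Y col W L j (insert i S) (U.piecewise c x) w ≤
        ((if i ∈ U then (if c i = col i v then 1 else 0) else 0) +
          2 * (Fintype.card (A i) : ℝ)⁻¹) * (K * (3 * κ)) := by
      intro i
      have h3 := h1 i U (hU.trans (subset_insert _ _)) c
      have h4 : (0 : ℝ) ≤ (Fintype.card (A i) : ℝ)⁻¹ := by positivity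
      have h5 : 0 ≤ K * (3 * κ) := by positivity
      by_cases hi : i ∈ U
      · simp only [piecewise_eq_of_mem _ _ _ hi, if_pos hi, ← mul_sum]
        exact mul_le_mul (by linarith) h3 (sum_nonneg fun x _ => sum_nonneg fun w _ =>
          mul_nonneg (H.nn _ _ _) (Y_nonneg H.nn hL _ _ _ _)) (by split_ifs <;> positivity)
      · simp only [piecewise_eq_of_notMem _ _ _ hi, if_neg hi, add_mul, sum_add_distrib,
          ← mul_sum, zero_mul]
        rw [sum_update i (col i v)
          fun x => ∑ w, W i v w * Y col W L j (insert i S) (U.piecewise c x) w]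
        have e : ∀ x, U.piecewise c (update x i (col i v)) =
            (insert i U).piecewise (update c i (col i v)) x := by
          intro x
          funext k
          by_cases hk : k = i
          · subst hk; simp [piecewise, hi]
          · simp [piecewise, hk]
        simp only [e]
        have h6 := h1 i (insert i U) (insert_subset_insert _ hU) (update c i (col i v))
        nlinarith [mul_le_mul_of_nonneg_left h3 h4, mul_le_mul_of_nonneg_left h6 h4]
    have h7 : ∑ i, (if i ∈ S then 1 else L⁻¹) * ((if i ∈ U then (if c i = col i v then 1 else 0)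
        else 0) + 2 * (Fintype.card (A i) : ℝ)⁻¹) ≤ Lam col U c v + 4 := by
      have h8 : ∀ i, (if i ∈ S then 1 else L⁻¹) * ((if i ∈ U then (if c i = col i v then 1 else 0)
          else 0) + 2 * (Fintype.card (A i) : ℝ)⁻¹) ≤
          (if i ∈ U then (if c i = col i v then 1 else 0) else 0) +
            (if i ∈ S then (2 : ℝ) / m else 0) +
            2 * L⁻¹ * (Fintype.card (A i) : ℝ)⁻¹ := by
        intro i
        have h4 : 0 ≤ 2 * L⁻¹ * (Fintype.card (A i) : ℝ)⁻¹ := by positivity
        by_cases hi : i ∈ S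
        · have h9 : (Fintype.card (A i) : ℝ)⁻¹ ≤ (m : ℝ)⁻¹ :=
            inv_anti₀ hm' (by exact_mod_cast H.big i)
          rw [if_pos hi, if_pos hi, one_mul, div_eq_mul_inv]
          linarith
        · rw [if_neg hi, if_neg hi, if_neg fun h => hi (hU h)]
          linarith
      refine (sum_le_sum fun i _ => h8 i).trans ?_
      rw [sum_add_distrib, sum_add_distrib, sum_ite_mem, sum_ite_mem, univ_inter, univ_inter,
        sum_const, nsmul_eq_mul, ← mul_sum]
      have h9 : (S.card : ℝ) * (2 / m) ≤ 2 := by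
        rw [← mul_div_assoc, div_le_iff₀' hm']
        exact mul_le_mul_of_nonneg_right (by exact_mod_cast (by omega : S.card ≤ m)) zero_le_two
      have h10 : L⁻¹ * ∑ i, (Fintype.card (A i) : ℝ)⁻¹ ≤ 1 := by
        rw [inv_mul_le_iff₀ hL, mul_one]; exact H.tot
      unfold Lam
      linarith
    simp only [Y_succ]
    rw [sum_comm]
    calc _ ≤ ∑ i, (if i ∈ S then 1 else L⁻¹) * (((if i ∈ U then (if c i = col i v then 1 else 0)
            else 0) + 2 * (Fintype.card (A i) : ℝ)⁻¹) * (K * (3 * κ))) := by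
          refine sum_le_sum fun i _ => ?_
          rw [← mul_sum]
          exact mul_le_mul_of_nonneg_left (h2 i) (by split_ifs <;> positivity)
      _ ≤ (Lam col U c v + 4) * (K * (3 * κ)) := by
          simp only [← mul_assoc _ _ (K * (3 * κ)), ← sum_mul]
          exact mul_le_mul_of_nonneg_right h7 (by positivity)
      _ ≤ _ := by
          rw [pow_succ, ← mul_assoc (Fintype.card _ : ℝ), ← hK]
          nlinarith [mul_nonneg (hLam U c v) (mul_nonneg hK0 hk)]

/-- The matrix of the sum of the centred kernels. -/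
noncomputable def B (col : ∀ i, V → A i) (W : ι → V → V → ℝ) (x : ∀ i, A i) : Matrix V V ℝ :=
  fun v w => ∑ i, D col x i v * W i v w

variable [DecidableEq V]

omit [DecidableEq ι] in
theorem B_pow (x : ∀ i, A i) (g : V → ℝ) (j : ℕ) (v : V) :
    (B col W x ^ j).mulVec g v = wsum j fun s => T col W x g s v := by
  induction j generalizing v with
  | zero => simp [wsum, T]
  | succ j ih =>
    rw [pow_succ', ← Matrix.mulVec_mulVec]
    simp only [wsum, T, wsum_mul, wsum_sum, ← ih]
    generalize (B col W x ^ j).mulVec g = u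
    simp only [Matrix.mulVec, dotProduct, B, sum_mul, mul_sum, mul_assoc]
    rw [sum_comm]

theorem trace_le {k : ℕ} {κ L : ℝ} (H : Hyp col W (2 * k) κ L) :
    ∑ x, (B col W x ^ (2 * k)).trace ≤
      Fintype.card (∀ i, A i) * (Fintype.card V * ((12 * κ) ^ (2 * k) * L ^ k)) := by
  have hL : 0 < L := one_pos.trans_le H.one
  have h1 : ∀ v, ∑ x, (B col W x ^ (2 * k)) v v ≤
      Fintype.card (∀ i, A i) * ((12 * κ) ^ (2 * k) * L ^ k) := by
    intro v
    have e : ∀ x, (B col W x ^ (2 * k)) v v =
        wsum (2 * k) fun s => T col W x (Pi.single v 1) s v := by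
      intro x
      rw [← B_pow, Matrix.mulVec_single_one]
      rfl
    have hg : ∀ w, |(Pi.single v 1 : V → ℝ) w| ≤ 1 := fun w => by
      rw [Pi.single_apply]; split_ifs <;> simp
    simp only [e, ← wsum_sum]
    by_cases hne : Nonempty (∀ i, A i)
    swap
    · rw [not_nonempty_iff] at hne
      have h := wsum_mul (ι := ι) (2 * k) 0 fun _ => 0
      simp only [zero_mul] at h
      simp [h]
    obtain ⟨c⟩ := hne
    have h2 := Y_le H (2 * k) ∅ ∅ Subset.rfl (by simp) c v
    simp only [piecewise_empty, Lam, sum_empty, add_zero, mul_one, Y, ← wsum_sum] at h2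
    refine (wsum_mono _ (G := fun s => L ^ k * ∑ x, nw L ∅ s * Ta col W x s v)
      fun s hs => ?_).trans ?_
    · have h0 : ∀ x, 0 ≤ Ta col W x s v := fun x =>
        (abs_nonneg _).trans (T_le col W H.nn x hg s v)
      by_cases h : ∃ i, s.count i = 1
      · obtain ⟨i, hi⟩ := h
        have h3 := lonely col W (Pi.single v 1) i hi v (fun _ => 1) fun _ _ => rfl
        simp only [one_mul] at h3
        rw [h3, nw_eq]
        exact mul_nonneg (by positivity) (sum_nonneg fun x _ => mul_nonneg (by positivity) (h0 x))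
      · rw [mul_sum]
        refine sum_le_sum fun x _ => (le_abs_self _).trans ((T_le col W H.nn x hg s v).trans ?_)
        rw [← mul_assoc]
        exact le_mul_of_one_le_left (h0 x) (nw_ge H.one hs (not_exists.1 h))
    · rw [wsum_mul, ← mul_assoc, mul_comm (L ^ k)]
      exact mul_le_mul_of_nonneg_right h2 (by positivity)
  simp only [Matrix.trace, Matrix.diag_apply]
  rw [sum_comm]
  refine (sum_le_sum fun v _ => h1 v).trans ?_
  rw [sum_const, card_univ, nsmul_eq_mul, mul_left_comm]

end prob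

section form

variable {V : Type} [Fintype V] [DecidableEq V] {μ : V → ℝ}

/-- Self-adjoint for the weights `μ`. -/
def Rev (μ : V → ℝ) (C : Matrix V V ℝ) : Prop := ∀ v w, μ v * C v w = μ w * C w v

theorem Rev.sq {C : Matrix V V ℝ} (h : Rev μ C) : Rev μ (C ^ 2) := by
  intro v w
  simp only [pow_two, Matrix.mul_apply, mul_sum]
  refine sum_congr rfl fun u _ => ?_
  rw [← mul_assoc, h v u, ← mul_assoc, h w u, mul_right_comm]

/-- The quadratic form. -/
def qf (μ : V → ℝ) (C : Matrix V V ℝ) (f : V → ℝ) : ℝ := ∑ v, ∑ w, μ v * C v w * f v * f w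

theorem cs1 (hμ : ∀ v, 0 < μ v) {C : Matrix V V ℝ} (h : Rev μ C) (f : V → ℝ) :
    qf μ C f ^ 2 ≤ (∑ v, μ v * f v ^ 2) * qf μ (C ^ 2) f := by
  have e1 : qf μ C f = ∑ v, μ v * f v * ∑ w, C v w * f w := by
    simp only [qf, mul_sum]
    exact sum_congr rfl fun v _ => sum_congr rfl fun w _ => by ring
  have e2 : qf μ (C ^ 2) f = ∑ v, μ v * (∑ w, C v w * f w) ^ 2 := by
    simp only [qf, pow_two, Matrix.mul_apply, mul_sum, sum_mul]
    rw [sum_comm (s := univ) (t := univ)
      (f := fun v u => ∑ w, μ v * (C v w * f w * (C v u * f u))), sum_comm]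
    refine sum_congr rfl fun u _ => ?_
    rw [sum_comm]
    refine sum_congr rfl fun v _ => sum_congr rfl fun w _ => ?_
    linear_combination (C v u * f w * f u) * h w v
  rw [e1, e2]
  exact sum_sq_le_sum_mul_sum_of_sq_le_mul _ (fun v _ => by have := hμ v; positivity)
    (fun v _ => by have := hμ v; positivity) fun v _ => le_of_eq (by ring)

theorem cs2 (hμ : ∀ v, 0 < μ v) {C : Matrix V V ℝ} (h : Rev μ C) (f : V → ℝ) :
    qf μ C f ^ 2 ≤ (∑ v, μ v * f v ^ 2) ^ 2 * (C ^ 2).trace := by
  have e1 : (∑ v, μ v * f v ^ 2) ^ 2 = ∑ y : V × V, μ y.1 * f y.1 ^ 2 * (μ y.2 * f y.2 ^ 2) := by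
    rw [pow_two, sum_mul_sum, Fintype.sum_prod_type]
  have e2 : (C ^ 2).trace = ∑ y : V × V, C y.1 y.2 * C y.2 y.1 := by
    simp only [Fintype.sum_prod_type, pow_two, Matrix.trace, Matrix.diag_apply, Matrix.mul_apply]
  rw [e1, e2, qf, ← Fintype.sum_prod_type']
  refine sum_sq_le_sum_mul_sum_of_sq_le_mul _
    (fun y _ => by have := hμ y.1; have := hμ y.2; positivity) (fun y _ => ?_)
    fun y _ => le_of_eq ?_
  · refine nonneg_of_mul_nonneg_right ?_ (hμ y.2)
    rw [mul_left_comm, ← h y.1 y.2, mul_left_comm, ← pow_two]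
    exact mul_nonneg (hμ _).le (sq_nonneg _)
  · linear_combination (μ y.1 * C y.1 y.2 * f y.1 ^ 2 * f y.2 ^ 2) * h y.1 y.2

theorem cs (hμ : ∀ v, 0 < μ v) (f : V → ℝ) (j : ℕ) {C : Matrix V V ℝ} (h : Rev μ C) :
    qf μ C f ^ 2 ^ (j + 1) ≤ (∑ v, μ v * f v ^ 2) ^ 2 ^ (j + 1) * (C ^ 2 ^ (j + 1)).trace := by
  induction j generalizing C with
  | zero => exact cs2 hμ h f
  | succ j ih =>
    have h0 : 0 ≤ ∑ v, μ v * f v ^ 2 := sum_nonneg fun v _ => by have := hμ v; positivity
    rw [pow_succ' 2 (j + 1), pow_mul, pow_mul C, two_mul, pow_add (∑ v, μ v * f v ^ 2),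
      mul_assoc]
    refine (pow_le_pow_left₀ (sq_nonneg _) (cs1 hμ h f) _).trans ?_
    rw [mul_pow]
    exact mul_le_mul_of_nonneg_left (ih h.sq) (by positivity)

end form

/-- The mean over the colours of the centred quadratic form. -/
theorem tr {ι : Type} [Fintype ι] [DecidableEq ι] {A : ι → Type} [∀ i, Fintype (A i)]
    [∀ i, DecidableEq (A i)] {V : Type} [Fintype V] [DecidableEq V] {col : ∀ i, V → A i}
    {W : ι → V → V → ℝ} {μ : V → ℝ} {j : ℕ} {κ L : ℝ} (H : Hyp col W (2 ^ (j + 1)) κ L)
    (hμ : ∀ v, 0 < μ v) (sym : ∀ i v w, μ v * W i v w = μ w * W i w v)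
    (supp : ∀ i v w, W i v w ≠ 0 → col i v = col i w) (hV : Fintype.card V ≤ 2 ^ 2 ^ (j + 1))
    (f : (∀ i, A i) → V → ℝ) (hf : ∀ x v, |f x v| ≤ 1) :
    ∑ x, |∑ v, ∑ w, ∑ i, μ v * W i v w * D col x i v * f x v * f x w| ≤
      Fintype.card (∀ i, A i) * (24 * κ * √L * ∑ v, μ v) := by
  have hk := H.k0
  have hL : 0 < L := one_pos.trans_le H.one
  have hM : 0 ≤ ∑ v, μ v := sum_nonneg fun v _ => (hμ v).le
  have hR : ∀ x, Rev μ (B col W x) := by
    intro x v w
    simp only [B, mul_sum]
    refine sum_congr rfl fun i _ => ?_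
    by_cases h : W i v w = 0
    · have h1 := sym i v w
      rw [h, mul_zero] at h1
      rw [h, mul_left_comm (μ w), ← h1]
      simp
    · rw [mul_left_comm, sym, mul_left_comm, D, D, supp i v w h]
  have e : ∀ x, ∑ v, ∑ w, ∑ i, μ v * W i v w * D col x i v * f x v * f x w =
      qf μ (B col W x) (f x) := by
    intro x
    simp only [qf, B, mul_sum, sum_mul]
    exact sum_congr rfl fun v _ => sum_congr rfl fun w _ => sum_congr rfl fun i _ => by ring
  have h1 : ∀ x, |qf μ (B col W x) (f x)| ^ 2 ^ (j + 1) ≤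
      (∑ v, μ v) ^ 2 ^ (j + 1) * (B col W x ^ 2 ^ (j + 1)).trace := by
    intro x
    have h3 : 0 ≤ (B col W x ^ 2 ^ (j + 1)).trace := by
      have h4 : ∀ k : ℕ, Rev μ (B col W x ^ 2 ^ k) := by
        intro k
        induction k with
        | zero => simpa using hR x
        | succ k ih => rw [pow_succ, pow_mul]; exact ih.sq
      rw [pow_succ, pow_mul]
      simp only [pow_two, Matrix.trace, Matrix.diag_apply, Matrix.mul_apply]
      refine sum_nonneg fun v _ => sum_nonneg fun w _ => nonneg_of_mul_nonneg_right ?_ (hμ w)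
      rw [mul_left_comm, ← h4 j v w, mul_left_comm, ← pow_two]
      exact mul_nonneg (hμ _).le (sq_nonneg _)
    rw [Even.pow_abs (by simp [Nat.even_pow])]
    refine (cs hμ (f x) j (hR x)).trans (mul_le_mul_of_nonneg_right (pow_le_pow_left₀
      (sum_nonneg fun v _ => by have := hμ v; positivity) (sum_le_sum fun v _ => ?_) _) h3)
    exact mul_le_of_le_one_right (hμ v).le ((sq_le_one_iff_abs_le_one _).2 (hf x v))
  obtain ⟨n, hn⟩ : ∃ n, 2 ^ (j + 1) = n + 1 := ⟨2 ^ (j + 1) - 1, by
    have := Nat.two_pow_pos (j + 1); omega⟩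
  have h5 := trace_le (k := 2 ^ j) (by rwa [← pow_succ'])
  rw [← pow_succ'] at h5
  simp only [e]
  refine le_of_pow_le_pow_left₀ (n := n + 1) (by omega) (by positivity) ?_
  refine (pow_sum_le_card_mul_sum_pow (fun x _ => abs_nonneg _) n).trans ?_
  rw [← hn, card_univ]
  have h6 : (Fintype.card V : ℝ) ≤ 2 ^ 2 ^ (j + 1) := by exact_mod_cast hV
  calc _ ≤ (Fintype.card (∀ i, A i) : ℝ) ^ n * ((∑ v, μ v) ^ 2 ^ (j + 1) *
        (Fintype.card (∀ i, A i) * (2 ^ 2 ^ (j + 1) * ((12 * κ) ^ 2 ^ (j + 1) * L ^ 2 ^ j)))) := by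
        refine mul_le_mul_of_nonneg_left ((sum_le_sum fun x _ => h1 x).trans ?_) (by positivity)
        rw [← mul_sum]
        refine mul_le_mul_of_nonneg_left (h5.trans ?_) (by positivity)
        gcongr
    _ = _ := by
        have h7 : L ^ 2 ^ j = √L ^ 2 ^ (j + 1) := by rw [pow_succ', pow_mul, Real.sq_sqrt hL.le]
        rw [h7, hn, show (24 : ℝ) = 2 * 12 by norm_num]
        simp only [mul_pow]
        ring

end Pool.Agent.MP_ca0a54_nt.H24T
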